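import Mathlib

/-!
# The identity as a combination of products of eigenvectors
-/

set_option autoImplicit false

namespace Pool.Agent.V8H40.CX

theorem one_mem_of_dual {K : Type} [Field K] {E : Type} [AddCommGroup E] [Module K E]
    [FiniteDimensional K E] (F : E →ₗ[K] E) (S : Set E) (hS : Submodule.span K S = ⊤)
    (hSe : ∀ x ∈ S, ∃ a : K, F x = a • x) (B : E →ₗ[K] E →ₗ[K] K)
    (left : ∀ x, (∀ y, B x y = 0) → x = 0) (right : ∀ y, (∀ x, B x y = 0) → y = 0)
    (Q : K) (hQ : Q ≠ 0) (equivariant : ∀ x y, B (F x) (F y) = Q * B x y)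
    (N : Submodule K (Module.End K E))
    (hN : ∀ x' ∈ S, ∀ a c : K, ∀ x, F x' = a • x' → F x = c • x → a * c = Q →
      ∀ f : Module.End K E, (∀ z, f z = B z x • x') → f ∈ N) : (1 : Module.End K E) ∈ N := by
  classical
  let b := Module.Basis.ofSpan hS.ge
  have hb : ∀ j, b j ∈ S := fun j => Module.Basis.ofSpan_subset hS.ge ⟨j, rfl⟩
  have := FiniteDimensional.fintypeBasisIndex b
  have hinj : Function.Injective B.flip := by
    rw [injective_iff_map_eq_zero]
    intro y hy
    exact right y (fun x => by
      have := LinearMap.congr_fun hy x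
      simpa using this)
  have hsurj : Function.Surjective B.flip := by
    have hd : Module.finrank K E = Module.finrank K (E →ₗ[K] K) := Subspace.dual_finrank_eq.symm
    exact (LinearMap.injective_iff_surjective_of_finrank_eq_finrank hd).1 hinj
  choose e he using fun j => hsurj (b.coord j)
  have he' : ∀ j z, B z (e j) = b.coord j z := fun j z => by
    rw [← he j]
    rfl
  choose a ha using fun j => hSe (b j) (hb j)
  have ha0 : ∀ j, a j ≠ 0 := by
    intro j h
    have h1 : F (b j) = 0 := by rw [ha j, h, zero_smul]
    have h2 : b j = 0 := left _ (fun y => by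
      have h3 := equivariant (b j) y
      rw [h1, map_zero, LinearMap.zero_apply] at h3
      exact (mul_eq_zero.1 h3.symm).resolve_left hQ)
    exact b.ne_zero j h2
  have hFe : ∀ j, F (e j) = (Q / a j) • e j := by
    intro j
    rw [← sub_eq_zero]
    apply right
    intro x
    have h1 : (B.flip (F (e j) - (Q / a j) • e j)) = 0 := by
      apply b.ext
      intro k
      rw [LinearMap.flip_apply, map_sub, map_smul, he', LinearMap.zero_apply, smul_eq_mul]
      have h2 := equivariant (b k) (e j)
      rw [ha k, map_smul, LinearMap.smul_apply, smul_eq_mul, he'] at h2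
      rw [Module.Basis.coord_apply, Module.Basis.repr_self, Finsupp.single_apply] at h2 ⊢
      by_cases hkj : k = j
      · subst hkj
        rw [if_pos rfl, mul_one] at h2 ⊢
        rw [sub_eq_zero, eq_div_iff (ha0 k), mul_comm]
        exact h2
      · rw [if_neg hkj, mul_zero] at h2 ⊢
        rw [sub_zero]
        exact (mul_eq_zero.1 h2).resolve_left (ha0 k)
    have := LinearMap.congr_fun h1 x
    simpa using this
  have h1 : (1 : Module.End K E) = ∑ j, (b.coord j).smulRight (b j) := by
    apply LinearMap.ext
    intro z
    rw [LinearMap.sum_apply]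
    simp only [LinearMap.smulRight_apply, Module.Basis.coord_apply]
    exact (b.sum_repr z).symm
  rw [h1]
  refine Submodule.sum_mem _ fun j _ => ?_
  refine hN (b j) (hb j) (a j) (Q / a j) (e j) (ha j) (hFe j) (mul_div_cancel₀ _ (ha0 j)) _ ?_
  intro z
  rw [he', LinearMap.smulRight_apply]

end Pool.Agent.V8H40.CX
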